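import Pool.Agent.H23.BallotMaj

/-! The major index of `123`-avoiding linear extensions of `NE_{s,2}`. -/

namespace Pool.Agent.Results.MP_1fed52_co.MajCatalan

open Pool.Agent.H23.BallotMaj Polynomial

/-- The order of `NE_{s,t}`: for `x = (i-1)t + j`, `y = (i'-1)t + j'`, `x ⊴ y` iff `i' ≤ i` and
`j' ≤ j`. -/
def NE (t x y : ℕ) : Prop := (y - 1) / t ≤ (x - 1) / t ∧ (y - 1) % t ≤ (x - 1) % t

theorem result (s : ℕ) :
    ∑ w ∈ LE123 (s * 2) (NE 2), (X : ℚ[X]) ^ maj w = X ^ (s ^ 2) * ∑ w ∈ CW 1 2 s, X ^ maj w := by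
  have hR : Rect s (fun a => 2 * (s - a)) (fun b => 2 * (s - b) - 1) (NE 2) := by
    constructor <;> intro i hi j hj <;> simp only [NE] <;> omega
  rw [mul_comm s 2, LE_eq hR (fun i hi j hj h => by omega) (fun i hi j hj h => by omega),
    CW_eq (by omega)]
  · refine poly_eq _ _ _ fun q hq => ?_
    obtain ⟨h0, h1, h2⟩ := good_q hq
    have e1 := caseHigh (α := fun a => 2 * (s - a)) (β := fun b => 2 * (s - b) - 1) (s := s) h0 h2
      (fun a h => by omega) (fun a h => by omega) (fun a h b h' => by omega) (fun a h => by omega)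
    have e2 := catalan (show 1 < 2 by omega) h1 s
    rw [T_symm h0 h1, ← e2] at e1
    rw [sq]
    exact e1
  · intro x
    constructor
    · intro h
      rcases Nat.mod_two_eq_zero_or_one x with h2 | h2
      · exact Or.inl ⟨s - x / 2, by omega, by omega⟩
      · exact Or.inr ⟨s - (x + 1) / 2, by omega, by omega⟩
    · rintro (⟨i, hi, rfl⟩ | ⟨i, hi, rfl⟩) <;> omega

end Pool.Agent.Results.MP_1fed52_co.MajCatalan
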